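import Pool.Agent.K7.H2.UT.Stm

/-!
MP_862e21_al : job SMALL (squares for 13, cubes for 19, 31, 43, 67, 79).
-/

set_option autoImplicit false

namespace Pool.Agent.K7.H79.UT

theorem aux {p : ℕ} [Fact p.Prime] (r u v w : ℕ) (hu : ¬ p ∣ u) (hv : ¬ p ∣ v) (hw : ¬ p ∣ w)
    (h : (u ^ r + v ^ r) % p = w ^ r % p) :
    ∃ x ∈ (powMonoidHom r : (ZMod p)ˣ →* (ZMod p)ˣ).range,
    ∃ y ∈ (powMonoidHom r : (ZMod p)ˣ →* (ZMod p)ˣ).range,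
      ∃ z ∈ (powMonoidHom r : (ZMod p)ˣ →* (ZMod p)ˣ).range, (x : ZMod p) + y = z := by
  have ne : ∀ n : ℕ, ¬ p ∣ n → (n : ZMod p) ≠ 0 := fun n hn h0 =>
    hn ((ZMod.natCast_eq_zero_iff n p).1 h0)
  refine ⟨Units.mk0 (u : ZMod p) (ne u hu) ^ r, ⟨_, rfl⟩, Units.mk0 (v : ZMod p) (ne v hv) ^ r,
    ⟨_, rfl⟩, Units.mk0 (w : ZMod p) (ne w hw) ^ r, ⟨_, rfl⟩, ?_⟩
  have h1 := (ZMod.natCast_eq_natCast_iff' (u ^ r + v ^ r) (w ^ r) p).2 h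
  push_cast at h1 ⊢
  exact h1

theorem stSMALL : Pool.Agent.K7.H2.UT.StSMALL := by
  intro p r _ h
  simp only [List.mem_cons, Prod.mk.injEq, List.not_mem_nil, or_false] at h
  rcases h with ⟨rfl, rfl⟩ | ⟨rfl, rfl⟩ | ⟨rfl, rfl⟩ | ⟨rfl, rfl⟩ | ⟨rfl, rfl⟩ | ⟨rfl, rfl⟩
  · exact aux 2 1 4 2 (by norm_num) (by norm_num) (by norm_num) (by norm_num)
  · exact aux 3 1 4 2 (by norm_num) (by norm_num) (by norm_num) (by norm_num)
  · exact aux 3 1 1 4 (by norm_num) (by norm_num) (by norm_num) (by norm_num)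
  · exact aux 3 4 4 7 (by norm_num) (by norm_num) (by norm_num) (by norm_num)
  · exact aux 3 1 5 9 (by norm_num) (by norm_num) (by norm_num) (by norm_num)
  · exact aux 3 2 8 5 (by norm_num) (by norm_num) (by norm_num) (by norm_num)

end Pool.Agent.K7.H79.UT
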